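import Pool.Agent.H7.TRI.Stmts

/-! Board `tri`, row GSP. -/

open Finset

namespace Pool.TRI

open Classical in
theorem GSP_pay {V : Type} [Fintype V] [DecidableEq V] (G : SimpleGraph V) (d : ℕ) (v : V) :
    pay G d v = ∑ C ∈ RC G d, ∑ w ∈ Iso G C,
      if v ∉ C ∧ w ∈ nb G v then lk G d C w else 0 := by
  unfold pay
  rw [sum_filter]
  refine sum_congr rfl fun C _ => ?_
  by_cases h : v ∉ C
  · rw [if_pos h]
    have e : Iso G C ∩ nb G v = (Iso G C).filter (fun w => w ∈ nb G v) := by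
      ext w
      rw [mem_inter, mem_filter]
    rw [e, sum_filter]
    exact sum_congr rfl fun w _ => by simp only [h, not_false_eq_true, true_and]
  · rw [if_neg h]
    symm
    exact sum_eq_zero fun w _ => if_neg (fun h' => h h'.1)

theorem GSP_thm (h1 : LKBStmt) : GSPStmt := by
  classical
  intro V _ _ G d m hyp
  simp_rw [GSP_pay]
  rw [sum_comm]
  refine sum_le_sum fun C hC => ?_
  rw [sum_comm]
  refine sum_le_sum fun w hw => ?_
  have hnn : ∀ v ∈ (univ : Finset V), (0 : ℤ) ≤ if v ∉ C ∧ w ∈ nb G v then lk G d C w else 0 := by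
    intro v _
    split_ifs
    · exact lk_nonneg _ _ _
    · exact le_rfl
  rcases (nb G w \ C).eq_empty_or_nonempty with h0 | ⟨y, hy⟩
  · rw [(h1 V G d m hyp C hC w hw).1 h0]
    exact sum_nonneg fun v hv => by split_ifs <;> exact le_rfl
  · obtain ⟨hy1, hy2⟩ := mem_sdiff.1 hy
    have := single_le_sum hnn (mem_univ y)
    rwa [if_pos ⟨hy2, mem_nb.2 (mem_nb.1 hy1).symm⟩] at this

end Pool.TRI
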