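import Pool.Agent.H7.TRI.Stmts

/-! Board `tri`, row LKB. -/

open Finset

namespace Pool.TRI

theorem LKB_thm (h1 : ISAStmt) (h2 : ISBStmt) (h3 : OUTStmt) (h4 : RCHStmt) : LKBStmt := by
  intro V _ _ G d m hyp C hC w hw
  obtain ⟨hcard, hsum, hs2, hx2, -, hXX, -, -⟩ := h4 V G d m hyp C hC
  obtain ⟨hwC, hdf, -⟩ := mem_Iso.1 hw
  have hwX : w ∈ XX G C := (hXX w hwC).2 hdf.ge
  obtain ⟨o1, o2, o3, o4⟩ := h3 V G d m hyp C hC w hwX
  have hT1 : Tt G d C ≤ (d : ℤ) + xx G C - 4 := min_le_right _ _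
  have hT2 : Tt G d C ≤ 2 * sg G C := min_le_left _ _
  refine ⟨fun h0 => ?_, fun y hy hyC => ?_⟩
  · have h5 := h1 V G d m hyp C hC w hw h0
    unfold lk
    exact max_eq_left (by linarith)
  · obtain ⟨hy1, e, he0, he1, hc, het, hex⟩ := h2 V G d m hyp C hC w hw y hy hyC
    have h6 := o3 y hy hyC
    have hcpos : (1 : ℤ) ≤ ((nb G y ∩ XX G C).card : ℤ) := by
      have : w ∈ nb G y ∩ XX G C := mem_inter.2 ⟨mem_nb.2 (mem_nb.1 hy).symm, hwX⟩
      exact_mod_cast card_pos.2 ⟨w, this⟩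
    have hs : sg G C + xx G C = d := by
      have : ((SS G C).card : ℤ) + ((XX G C).card : ℤ) = (d : ℤ) + 1 := by exact_mod_cast hsum
      unfold sg xx
      linarith
    have hs2' : (2 : ℤ) ≤ ((SS G C).card : ℤ) := by exact_mod_cast hs2
    refine ⟨hy1, ?_, ?_, by linarith⟩
    · unfold lk
      exact max_le (by linarith) (by linarith)
    · unfold lk
      exact max_le (by linarith) (by linarith)

end Pool.TRI
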